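import Pool.Agent.H5.RPG.Stmts

set_option autoImplicit false

namespace Pool.RPG

theorem cna_thm : CNAStmt := by
  classical
  intro n d A Z
  have h1 : (Finset.univ.filter fun s : Fin n → Fin d → Fin n => ∀ v ∈ A, ∀ j, s v j ∈ Z) =
      Fintype.piFinset (fun v : Fin n => Fintype.piFinset
        (fun _ : Fin d => if v ∈ A then Z else Finset.univ)) := by
    ext s
    simp only [Finset.mem_filter, Finset.mem_univ, true_and, Fintype.mem_piFinset]
    constructor
    · intro h v j
      by_cases hv : v ∈ A
      · simpa [hv] using h v hv j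
      · simp [hv]
    · intro h v hv j
      simpa [hv] using h v j
  have h2 : ∀ (v : Fin n), (Fintype.piFinset
        (fun _ : Fin d => if v ∈ A then Z else Finset.univ)).card =
      if v ∈ A then Z.card ^ d else n ^ d := by
    intro v
    rw [Fintype.card_piFinset]
    by_cases hv : v ∈ A <;> simp [hv]
  have h3 : (Finset.univ.filter fun s : Fin n → Fin d → Fin n => ∀ v ∈ A, ∀ j, s v j ∈ Z).card =
      Z.card ^ (d * A.card) * n ^ (d * (n - A.card)) := by
    rw [h1, Fintype.card_piFinset, Finset.prod_congr rfl (fun v _ => h2 v), Finset.prod_ite]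
    have h4 : (Finset.univ.filter fun v : Fin n => v ∈ A) = A := by ext; simp
    have h5 : (Finset.univ.filter fun v : Fin n => v ∉ A).card = n - A.card := by
      have : (Finset.univ.filter fun v : Fin n => v ∉ A) = Aᶜ := by ext; simp
      rw [this, Finset.card_compl, Fintype.card_fin]
    rw [Finset.prod_const, Finset.prod_const, h4, h5, pow_mul, pow_mul]
  convert h3

end Pool.RPG
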