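import Pool.Agent.H5.RPG.Stmts

set_option autoImplicit false

namespace Pool.RPG

theorem cnp_one {V : Type} [Fintype V] [DecidableEq V] (d : ℕ) (X Y : Finset V) (j : Fin d) :
    (Fintype.piFinset (fun i : Fin d => if i = j then Y else X)).card =
      Y.card * X.card ^ (d - 1) := by
  classical
  rw [Fintype.card_piFinset]
  have h : ∀ i : Fin d, (if i = j then Y else X).card = if i = j then Y.card else X.card := by
    intro i; split_ifs <;> rfl
  rw [Finset.prod_congr rfl (fun i _ => h i), Finset.prod_ite, Finset.prod_const,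
    Finset.prod_const]
  have h4 : (Finset.univ.filter fun i : Fin d => i = j) = {j} := by ext; simp
  have h5 : (Finset.univ.filter fun i : Fin d => ¬ i = j).card = d - 1 := by
    have : (Finset.univ.filter fun i : Fin d => ¬ i = j) = ({j} : Finset (Fin d))ᶜ := by
      ext; simp
    rw [this, Finset.card_compl, Fintype.card_fin, Finset.card_singleton]
  rw [h4, h5, Finset.card_singleton, pow_one]

theorem cnp_two {V : Type} [Fintype V] [DecidableEq V] (d : ℕ) (X Y : Finset V) (j k : Fin d)
    (hjk : j ≠ k) :
    (Fintype.piFinset (fun i : Fin d => if i = j ∨ i = k then Y else X)).card =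
      Y.card ^ 2 * X.card ^ (d - 2) := by
  classical
  rw [Fintype.card_piFinset]
  have h : ∀ i : Fin d, (if i = j ∨ i = k then Y else X).card =
      if i = j ∨ i = k then Y.card else X.card := by
    intro i; split_ifs <;> rfl
  rw [Finset.prod_congr rfl (fun i _ => h i), Finset.prod_ite, Finset.prod_const,
    Finset.prod_const]
  have h4 : (Finset.univ.filter fun i : Fin d => i = j ∨ i = k) = {j, k} := by ext; simp
  have h5 : (Finset.univ.filter fun i : Fin d => ¬ (i = j ∨ i = k)).card = d - 2 := by
    have : (Finset.univ.filter fun i : Fin d => ¬ (i = j ∨ i = k)) =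
        ({j, k} : Finset (Fin d))ᶜ := by
      ext; simp
    rw [this, Finset.card_compl, Fintype.card_fin, Finset.card_pair hjk]
  rw [h4, h5, Finset.card_pair hjk]

theorem cnp_thm : CNPStmt := by
  classical
  intro V _ _ d X Y
  constructor
  · have h1 : (Finset.univ.filter fun t : Fin d → V => (∀ j, t j ∈ X) ∧ ∃ j, t j ∈ Y) ⊆
        Finset.univ.biUnion (fun j : Fin d =>
          Fintype.piFinset (fun i : Fin d => if i = j then Y else X)) := by
      intro t ht
      simp only [Finset.mem_filter, Finset.mem_univ, true_and] at ht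
      obtain ⟨hX, j, hj⟩ := ht
      simp only [Finset.mem_biUnion, Finset.mem_univ, true_and, Fintype.mem_piFinset]
      refine ⟨j, fun i => ?_⟩
      by_cases hi : i = j
      · rw [if_pos hi, hi]; exact hj
      · rw [if_neg hi]; exact hX i
    have h2 : (Finset.univ.filter fun t : Fin d → V => (∀ j, t j ∈ X) ∧ ∃ j, t j ∈ Y).card ≤
        d * Y.card * X.card ^ (d - 1) := by
      refine (Finset.card_le_card h1).trans (Finset.card_biUnion_le.trans ?_)
      rw [Finset.sum_congr rfl (fun j _ => cnp_one d X Y j), Finset.sum_const, Finset.card_univ,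
        Fintype.card_fin, smul_eq_mul, mul_assoc]
    convert h2
  · have h1 : (Finset.univ.filter fun t : Fin d → V => (∀ j, t j ∈ X) ∧
        ∃ j k, j ≠ k ∧ t j ∈ Y ∧ t k ∈ Y) ⊆
        (Finset.univ.filter fun q : Fin d × Fin d => q.1 ≠ q.2).biUnion (fun q =>
          Fintype.piFinset (fun i : Fin d => if i = q.1 ∨ i = q.2 then Y else X)) := by
      intro t ht
      simp only [Finset.mem_filter, Finset.mem_univ, true_and] at ht
      obtain ⟨hX, j, k, hjk, hj, hk⟩ := ht
      simp only [Finset.mem_biUnion, Finset.mem_filter, Finset.mem_univ, true_and,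
        Fintype.mem_piFinset]
      refine ⟨(j, k), hjk, fun i => ?_⟩
      by_cases hi : i = j ∨ i = k
      · rw [if_pos hi]
        rcases hi with hi | hi
        · rw [hi]; exact hj
        · rw [hi]; exact hk
      · rw [if_neg hi]; exact hX i
    have h2 : (Finset.univ.filter fun t : Fin d → V => (∀ j, t j ∈ X) ∧
        ∃ j k, j ≠ k ∧ t j ∈ Y ∧ t k ∈ Y).card ≤ d ^ 2 * Y.card ^ 2 * X.card ^ (d - 2) := by
      refine (Finset.card_le_card h1).trans (Finset.card_biUnion_le.trans ?_)
      rw [Finset.sum_congr rfl (fun q hq => cnp_two d X Y q.1 q.2 (Finset.mem_filter.1 hq).2),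
        Finset.sum_const, smul_eq_mul, mul_assoc]
      refine Nat.mul_le_mul_right _ ?_
      refine (Finset.card_filter_le _ _).trans ?_
      rw [Finset.card_univ, Fintype.card_prod, Fintype.card_fin, sq]
    convert h2

end Pool.RPG
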